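import Pool.Agent.Q151.EL.Val
import Pool.Agent.Q239.EG.Base
import Pool.Agent.Q206.EG.AlgPoly

/-!
# Project EL (helper72): job SLC2
-/

set_option autoImplicit false

namespace Pool.Agent.Q151.EL

open MvPolynomial Filter Topology Metric Pool.Agent.Q72.EL

/-- a nonzero rational vector has a nonzero product with the weights; for finitely many vectors the
corresponding combinations of the `g_j ≈ - λ_j T` are at least `δ T` -/
theorem gap {c : ℕ} {lam : Fin c → ℝ} (hlam : LinearIndependent ℚ lam) (V : Finset (Fin c → ℚ)) :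
    ∃ δ K : ℝ, 0 < δ ∧ 1 ≤ K ∧ ∀ τ ∈ V, τ ≠ 0 → ∀ K' T : ℝ, K ≤ K' → 0 ≤ T → ∀ g : Fin c → ℝ,
      (∀ j, |g j + lam j * T| ≤ T / K') → δ * T ≤ |∑ j, ((τ j : ℚ) : ℝ) * g j| := by
  classical
  induction V using Finset.induction_on with
  | empty => exact ⟨1, 1, one_pos, le_rfl, fun v hv => absurd hv (Finset.notMem_empty v)⟩
  | insert a s ha ih =>
    obtain ⟨δ, K, h0, hK, h⟩ := ih
    by_cases h1 : a = 0
    · refine ⟨δ, K, h0, hK, fun v hv hv0 => ?_⟩
      rcases Finset.mem_insert.1 hv with rfl | hv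
      · exact absurd h1 hv0
      · exact h v hv hv0
    · obtain ⟨m, hm⟩ : ∃ m : ℝ, m = |∑ j, ((a j : ℚ) : ℝ) * lam j| := ⟨_, rfl⟩
      have hm0 : 0 < m := by
        rw [hm]
        refine abs_pos.2 fun h2 => h1 ?_
        funext j
        exact rel_zero hlam a h2 j
      obtain ⟨A, hA⟩ : ∃ A : ℝ, A = ∑ j, |((a j : ℚ) : ℝ)| := ⟨_, rfl⟩
      have hA0 : 0 ≤ A := by rw [hA]; exact Finset.sum_nonneg fun j _ => abs_nonneg _
      refine ⟨min δ (m / 2), max K (2 * A / m), lt_min h0 (by linarith),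
        hK.trans (le_max_left _ _), fun v hv hv0 K' T hK' hT g hg => ?_⟩
      rcases Finset.mem_insert.1 hv with rfl | hv
      · have hK1 : 1 ≤ K' := hK.trans ((le_max_left _ _).trans hK')
        have hK2 : 2 * A / m ≤ K' := (le_max_right _ _).trans hK'
        have e1 : |∑ j, ((v j : ℚ) : ℝ) * (g j + lam j * T)| ≤ A * (T / K') := by
          rw [hA, Finset.sum_mul]
          refine (Finset.abs_sum_le_sum_abs _ _).trans (Finset.sum_le_sum fun j _ => ?_)
          rw [abs_mul]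
          exact mul_le_mul_of_nonneg_left (hg j) (abs_nonneg _)
        have e2 : ∑ j, ((v j : ℚ) : ℝ) * (g j + lam j * T) =
            ∑ j, ((v j : ℚ) : ℝ) * g j + (∑ j, ((v j : ℚ) : ℝ) * lam j) * T := by
          rw [Finset.sum_mul, ← Finset.sum_add_distrib]
          refine Finset.sum_congr rfl fun j _ => ?_
          ring
        have e3 : m * T = |(∑ j, ((v j : ℚ) : ℝ) * lam j) * T| := by
          rw [abs_mul, abs_of_nonneg hT, hm]
        have e4 : m * T ≤ |∑ j, ((v j : ℚ) : ℝ) * g j| + A * (T / K') := by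
          rw [e3]
          have e5 : (∑ j, ((v j : ℚ) : ℝ) * lam j) * T =
              ∑ j, ((v j : ℚ) : ℝ) * (g j + lam j * T) - ∑ j, ((v j : ℚ) : ℝ) * g j := by
            rw [e2]; ring
          rw [e5]
          refine (abs_sub _ _).trans ?_
          linarith
        have e6 : A * (T / K') ≤ m / 2 * T := by
          have : A / K' ≤ m / 2 := by
            rw [div_le_iff₀ (by linarith)]
            rw [div_le_iff₀ hm0] at hK2
            nlinarith
          calc A * (T / K') = A / K' * T := by ring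
            _ ≤ m / 2 * T := mul_le_mul_of_nonneg_right this hT
        have e7 : min δ (m / 2) * T ≤ m / 2 * T :=
          mul_le_mul_of_nonneg_right (min_le_right _ _) hT
        linarith
      · have e1 := h v hv hv0 K' T ((le_max_left _ _).trans hK') hT g hg
        exact (mul_le_mul_of_nonneg_right (min_le_left _ _) hT).trans e1

/-- the logarithm is small -/
theorem log_small (δ C : ℝ) (hδ : 0 < δ) (hC : 0 ≤ C) : ∃ K : ℝ, 1 ≤ K ∧ ∀ T : ℝ, K ≤ T →
    C * Real.log T < δ * T := by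
  refine ⟨max 1 ((2 * C / δ) ^ 2 + 1), le_max_left _ _, fun T hT => ?_⟩
  have h1 : 1 ≤ T := (le_max_left _ _).trans hT
  have h2 : (2 * C / δ) ^ 2 + 1 ≤ T := (le_max_right _ _).trans hT
  have hT0 : 0 < T := by linarith
  have hs : 0 < Real.sqrt T := Real.sqrt_pos.2 hT0
  have h3 : Real.log T ≤ 2 * Real.sqrt T := by
    have e1 : Real.log T = 2 * Real.log (Real.sqrt T) := by
      rw [Real.log_sqrt hT0.le]; ring
    have e2 : Real.log (Real.sqrt T) ≤ Real.sqrt T - 1 := Real.log_le_sub_one_of_pos hs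
    rw [e1]
    linarith
  have h4 : 2 * C / δ < Real.sqrt T := by
    apply Real.lt_sqrt_of_sq_lt
    linarith
  have h5 : Real.sqrt T * Real.sqrt T = T := Real.mul_self_sqrt hT0.le
  rw [div_lt_iff₀ hδ] at h4
  calc C * Real.log T ≤ C * (2 * Real.sqrt T) := mul_le_mul_of_nonneg_left h3 hC
    _ = (2 * C) * Real.sqrt T := by ring
    _ < (Real.sqrt T * δ) * Real.sqrt T := mul_lt_mul_of_pos_right h4 hs
    _ = δ * (Real.sqrt T * Real.sqrt T) := by ring
    _ = δ * T := by rw [h5]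

/-- the connectedness argument -/
theorem conn {n c : ℕ} {lam : Fin c → ℝ} (hlam : LinearIndependent ℚ lam)
    (S : Finset (Fin c → ℚ)) (a : Fin c → ℚ) (D₁ D₀ : ℝ) (hD1 : 0 ≤ D₁) :
    ∃ K₁ : ℝ, 1 ≤ K₁ ∧ ∀ K T : ℝ, K₁ ≤ K → K ≤ T → ∀ (q : Fin n → ℂ) (ρ : ℝ)
      (F : (Fin n → ℂ) → ℝ) (g : (Fin n → ℂ) → Fin c → ℝ), 0 < ρ →
      ContinuousOn F (ball q ρ) → (∀ j, ContinuousOn (fun u => g u j) (ball q ρ)) →
      (∀ u ∈ ball q ρ, ∀ j, |g u j + lam j * T| ≤ T / K) →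
      (∀ u ∈ ball q ρ, ∃ σ ∈ S, |F u - ∑ j, ((σ j : ℚ) : ℝ) * g u j| ≤ D₁ * Real.log T) →
      |F q - ∑ j, ((a j : ℚ) : ℝ) * g q j| ≤ D₀ * Real.log T →
      ∀ u ∈ ball q ρ, |F u - ∑ j, ((a j : ℚ) : ℝ) * g u j| ≤ D₁ * Real.log T := by
  classical
  obtain ⟨δ, Ka, hδ, hKa, hgap⟩ := gap hlam (S.image fun σ => σ - a)
  obtain ⟨Kb, hKb, hlog⟩ := log_small δ (2 * D₁ + |D₀|) hδ
    (by have := abs_nonneg D₀; linarith)
  refine ⟨Ka + Kb, by linarith, ?_⟩
  intro K T hK hKT q ρ F g hρ hF hg hadm hS hc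
  have hT1 : 1 ≤ T := by linarith
  have hT0 : 0 ≤ T := by linarith
  obtain ⟨L, hL⟩ : ∃ L, L = Real.log T := ⟨_, rfl⟩
  rw [← hL] at hS hc ⊢
  have hL0 : 0 ≤ L := by rw [hL]; exact Real.log_nonneg hT1
  have hlogT : (2 * D₁ + |D₀|) * L < δ * T := by rw [hL]; exact hlog T (by linarith)
  have hqq : q ∈ ball q ρ := mem_ball_self hρ
  obtain ⟨φ, hφ⟩ : ∃ φ : (Fin n → ℂ) → ℝ, φ = fun u => |F u - ∑ j, ((a j : ℚ) : ℝ) * g u j| :=
    ⟨_, rfl⟩
  have hφc : ContinuousOn φ (ball q ρ) := by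
    rw [hφ]
    exact (hF.sub (continuousOn_finsetSum _ fun j _ => continuousOn_const.mul (hg j))).abs
  -- the two alternatives
  have halt : ∀ u ∈ ball q ρ, φ u ≤ D₁ * L ∨ δ * T - D₁ * L ≤ φ u := by
    intro u hu
    obtain ⟨σ, hσ, h1⟩ := hS u hu
    by_cases hσa : σ = a
    · left
      rw [hφ, ← hσa]
      exact h1
    · right
      have h2 := hgap (σ - a) (Finset.mem_image_of_mem _ hσ) (sub_ne_zero.2 hσa) K T
        (by linarith) hT0 (g u) (hadm u hu)
      have h3 : ∑ j, (((σ - a) j : ℚ) : ℝ) * g u j =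
          (F u - ∑ j, ((a j : ℚ) : ℝ) * g u j) - (F u - ∑ j, ((σ j : ℚ) : ℝ) * g u j) := by
        have : ∑ j, (((σ - a) j : ℚ) : ℝ) * g u j =
            ∑ j, ((σ j : ℚ) : ℝ) * g u j - ∑ j, ((a j : ℚ) : ℝ) * g u j := by
          rw [← Finset.sum_sub_distrib]
          refine Finset.sum_congr rfl fun j _ => ?_
          rw [Pi.sub_apply]
          push_cast
          ring
        rw [this]; ring
      rw [h3] at h2
      have h4 := h2.trans (abs_sub _ _)
      rw [hφ]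
      simp only
      linarith
  have hcen : φ q ≤ D₁ * L := by
    rcases halt q hqq with h | h
    · exact h
    · exfalso
      have h1 : φ q ≤ D₀ * L := by rw [hφ]; exact hc
      have h2 : D₀ * L ≤ |D₀| * L := mul_le_mul_of_nonneg_right (le_abs_self _) hL0
      nlinarith
  intro u hu
  have hgoal : φ u ≤ D₁ * L := by
    rcases halt u hu with h | h
    · exact h
    · exfalso
      have hD0 : 0 ≤ |D₀| * L := mul_nonneg (abs_nonneg _) hL0
      have h1 : φ q ≤ δ * T / 2 := by nlinarith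
      have h2 : δ * T / 2 ≤ φ u := by nlinarith
      obtain ⟨w, hw, h3⟩ := (convex_ball q ρ).isPreconnected.intermediate_value hqq hu hφc
        ⟨h1, h2⟩
      rcases halt w hw with h4 | h4
      · rw [h3] at h4; nlinarith
      · rw [h3] at h4; nlinarith
  rw [hφ] at hgoal
  exact hgoal

/-- the relation of `y_l` holds at the points of the variety -/
theorem root_at {n c : ℕ} {E : Type} [Field E] [Algebra ℂ E] (G : Gen n c E) (l : Fin n)
    (A : Polynomial (MvPolynomial (Fin c ⊕ Fin n) ℂ))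
    (hA : (A.map (aeval (Sum.elim (fun j => G.y (G.i j)) G.x) :
      MvPolynomial (Fin c ⊕ Fin n) ℂ →ₐ[ℂ] E).toRingHom).eval (G.y l) = 0)
    (x y : Fin n → ℂ) (Y : Fin c → ℂ) (hp : Sum.elim x y ∈ Pool.Agent.Q72.EG.Pt (Sum.elim G.x G.y))
    (hY : ∀ j, y (G.i j) = Y j) : (A.map (eval (Sum.elim Y x))).eval (y l) = 0 := by
  obtain ⟨s, hs⟩ : ∃ s : Fin c ⊕ Fin n → MvPolynomial (Fin n ⊕ Fin n) ℂ,
      s = Sum.elim (fun j => X (Sum.inr (G.i j))) (fun l => X (Sum.inl l)) := ⟨_, rfl⟩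
  obtain ⟨H, hH⟩ : ∃ H : MvPolynomial (Fin n ⊕ Fin n) ℂ,
      H = A.eval₂ (aeval s : MvPolynomial (Fin c ⊕ Fin n) ℂ →ₐ[ℂ]
        MvPolynomial (Fin n ⊕ Fin n) ℂ).toRingHom (X (Sum.inr l)) := ⟨_, rfl⟩
  have h1 : aeval (Sum.elim G.x G.y) H = 0 := by
    rw [← hA, hH, Polynomial.eval_map]
    have h2 := Polynomial.hom_eval₂ A (aeval s : MvPolynomial (Fin c ⊕ Fin n) ℂ →ₐ[ℂ]
        MvPolynomial (Fin n ⊕ Fin n) ℂ).toRingHom
      (aeval (Sum.elim G.x G.y) : MvPolynomial (Fin n ⊕ Fin n) ℂ →ₐ[ℂ] E).toRingHom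
      (X (Sum.inr l))
    have h3 : (aeval (Sum.elim G.x G.y) : MvPolynomial (Fin n ⊕ Fin n) ℂ →ₐ[ℂ] E).toRingHom.comp
        (aeval s : MvPolynomial (Fin c ⊕ Fin n) ℂ →ₐ[ℂ]
          MvPolynomial (Fin n ⊕ Fin n) ℂ).toRingHom =
        (aeval (Sum.elim (fun j => G.y (G.i j)) G.x) :
          MvPolynomial (Fin c ⊕ Fin n) ℂ →ₐ[ℂ] E).toRingHom := by
      apply MvPolynomial.ringHom_ext
      · intro r
        simp
      · rintro (j | l) <;> simp [hs]
    rw [h3] at h2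
    have h4 : (aeval (Sum.elim G.x G.y) : MvPolynomial (Fin n ⊕ Fin n) ℂ →ₐ[ℂ] E).toRingHom
        (X (Sum.inr l)) = G.y l := by simp
    rw [h4] at h2
    exact h2
  have h5 := hp H h1
  rw [Polynomial.eval_map, ← h5, hH]
  have h2 := Polynomial.hom_eval₂ A (aeval s : MvPolynomial (Fin c ⊕ Fin n) ℂ →ₐ[ℂ]
        MvPolynomial (Fin n ⊕ Fin n) ℂ).toRingHom (eval (Sum.elim x y)) (X (Sum.inr l))
  have h3 : (eval (Sum.elim x y)).comp (aeval s : MvPolynomial (Fin c ⊕ Fin n) ℂ →ₐ[ℂ]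
      MvPolynomial (Fin n ⊕ Fin n) ℂ).toRingHom = eval (Sum.elim Y x) := by
    apply MvPolynomial.ringHom_ext
    · intro r
      simp
    · rintro (j | l) <;> simp [hs, hY]
  rw [h3] at h2
  have h4 : (eval (Sum.elim x y)) (X (Sum.inr l)) = y l := by simp
  rw [h4] at h2
  exact h2.symm

/-- a polynomial in `(Y, x)` which is not zero has a coefficient outside of the ideal -/
theorem exists_notMem {n c : ℕ} {E : Type} [Field E] [Algebra ℂ E] (G : Gen n c E) {Y : Fin c → E}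
    {H : MvPolynomial (Fin c ⊕ Fin n) ℂ} (hH : aeval (Sum.elim Y G.x) H ≠ 0) :
    ∃ α, cf H α ∉ G.I := by
  by_contra h
  push Not at h
  apply hH
  rw [Pool.Agent.Q72.EL.aeval_sum]
  refine Finset.sum_eq_zero fun j _ => ?_
  rw [(G.mem_I _).1 (h j), zero_mul]

/-- **job SLC2** -/
theorem slc (h : S_slope) : S_slc := by
  classical
  intro n c E _ _ G
  have h1 := fun l => Pool.Agent.Q206.EG.alg_poly _ _ (G.halg l)
  choose A hA0 hA using h1
  have h2 : ∀ l, ∃ b α, cf ((A l).coeff b) α ∉ G.I := by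
    intro l
    obtain ⟨b, hb⟩ := hA0 l
    exact ⟨b, exists_notMem G hb⟩
  choose R S hR hRS using fun l => h n c G.I G.lam (A l) G.I_prime G.hlam (h2 l)
  have hprime : G.I.IsPrime := G.I_prime
  refine ⟨∏ l, R l, ?_, ?_⟩
  · intro hd
    obtain ⟨l, -, hl⟩ := (Ideal.IsPrime.prod_mem_iff (hp := hprime)).1 hd
    exact hR l hl
  intro R' hR' D D₀
  have h3 : ∀ l, R l ∣ R' := fun l => (Finset.dvd_prod_of_mem R (Finset.mem_univ l)).trans hR'
  choose D' K hK1 hK using fun l => hRS l R' (h3 l) D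
  obtain ⟨D₁, hD1⟩ : ∃ D₁ : ℝ, D₁ = ∑ l, |D' l| := ⟨_, rfl⟩
  have hD1l : ∀ l, D' l ≤ D₁ := fun l => by
    rw [hD1]
    exact (le_abs_self _).trans
      (Finset.single_le_sum (f := fun l => |D' l|) (fun i _ => abs_nonneg _) (Finset.mem_univ l))
  have hD10 : 0 ≤ D₁ := by rw [hD1]; exact Finset.sum_nonneg fun i _ => abs_nonneg _
  choose K' hK'1 hK' using fun l => conn (n := n) G.hlam (S l) (G.a l) D₁ D₀ hD10
  obtain ⟨K₀, hK0⟩ : ∃ K₀ : ℝ, K₀ = 1 + ∑ l, K l + ∑ l, K' l := ⟨_, rfl⟩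
  have hs1 : 0 ≤ ∑ l, K l := Finset.sum_nonneg fun l _ => by linarith [hK1 l]
  have hs2 : 0 ≤ ∑ l, K' l := Finset.sum_nonneg fun l _ => by linarith [hK'1 l]
  have hKl : ∀ l, K l ≤ K₀ := by
    intro l
    have h5 : K l ≤ ∑ l, K l :=
      Finset.single_le_sum (f := fun l => K l) (fun i _ => by linarith [hK1 i]) (Finset.mem_univ l)
    linarith
  have hK'l : ∀ l, K' l ≤ K₀ := by
    intro l
    have h5 : K' l ≤ ∑ l, K' l :=
      Finset.single_le_sum (f := fun l => K' l) (fun i _ => by linarith [hK'1 i])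
        (Finset.mem_univ l)
    linarith
  refine ⟨D₁, K₀, by linarith, ?_⟩
  intro T hT q ρ X Y y hρ hYc hyc hadm hpt hcen u hu l
  have hT1 : 1 ≤ T := by linarith
  have hT0 : 0 ≤ T := by linarith
  have hL : 0 ≤ Real.log T := Real.log_nonneg hT1
  refine hK' l K₀ T (hK'l l) hT q ρ (fun u => Real.log ‖y u l‖) (fun u j => Real.log ‖Y u j‖) hρ
    ?_ ?_ ?_ ?_ (hcen l) u hu
  · refine ContinuousOn.log ?_ ?_
    · exact ((continuous_apply l).comp_continuousOn hyc).norm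
    · intro w hw
      exact norm_ne_zero_iff.2 ((hpt w hw).2.1 l)
  · intro j
    refine ContinuousOn.log ?_ ?_
    · exact ((continuous_apply j).comp_continuousOn hYc).norm
    · intro w hw
      exact norm_ne_zero_iff.2 ((hadm w hw).2.2.2 j).1
  · intro w hw j
    exact ((hadm w hw).2.2.2 j).2
  · intro w hw
    have h5 := (hadm w hw).mono (by linarith [hK1 l]) (hKl l) hT0
    obtain ⟨σ, hσ, h6⟩ := hK l T ((hKl l).trans hT) (X w) (Y w) h5 (y w l) ((hpt w hw).2.1 l)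
      (root_at G l (A l) (hA l) (X w) (y w) (Y w) (hpt w hw).1 (hpt w hw).2.2)
    exact ⟨σ, hσ, h6.trans (mul_le_mul_of_nonneg_right (hD1l l) hL)⟩

end Pool.Agent.Q151.EL
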