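import Pool.Agent.Q72.EL.Stm

/-!
# Project EL (helper72): job SOLVE2, the core theorem
-/

set_option autoImplicit false

namespace Pool.Agent.Q151.EL

open MvPolynomial Filter Topology Metric Pool.Agent.Q72.EL

/-- **job SOLVE2** -/
theorem solve (h1 : S_lift) (h2 : S_cont) (h3 : S_slc) (h4 : Pool.Agent.Q72.EG.S_log)
    (h5 : Pool.Agent.Q72.EG.S_bc) (h6 : Pool.Agent.Q72.EG.S_fix) : S_solve := by
  intro n c E _ _ G H hH hreg γ hγ
  obtain ⟨R1, hR1, H1⟩ := h1 n c E G H hH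
  obtain ⟨R2, hR2, H2⟩ := h2 n c E G H hH
  obtain ⟨R3, hR3, H3⟩ := h3 n c E G
  have hprime : G.I.IsPrime := G.I_prime
  obtain ⟨R, hR⟩ : ∃ R, R = R1 * R2 * R3 := ⟨_, rfl⟩
  have hPR : R ∉ G.I := by
    intro h
    rw [hR] at h
    rcases hprime.mem_or_mem h with h | h
    · rcases hprime.mem_or_mem h with h | h
      · exact hR1 h
      · exact hR2 h
    · exact hR3 h
  have d1 : R1 ∣ R := ⟨R2 * R3, by rw [hR]; ring⟩
  have d2 : R2 ∣ R := ⟨R1 * R3, by rw [hR]; ring⟩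
  have d3 : R3 ∣ R := ⟨R1 * R2, by rw [hR]; ring⟩
  obtain ⟨D, hD⟩ := hreg R hPR
  obtain ⟨D1, K1, hK1, G1⟩ := H1 R d1 D
  obtain ⟨K2, hK2, G2⟩ := H2 R d2 D
  obtain ⟨D3, K3, hK3, G3⟩ := H3 R d3 D D1
  obtain ⟨Cγ, hCγ⟩ : ∃ C : ℝ, C = ∑ l, ‖Complex.log (γ l)‖ := ⟨_, rfl⟩
  have hCγ0 : 0 ≤ Cγ := by
    rw [hCγ]
    exact Finset.sum_nonneg fun l _ => norm_nonneg _
  have hCγl : ∀ l, ‖Complex.log (γ l)‖ ≤ Cγ := fun l => by
    rw [hCγ]
    exact Finset.single_le_sum (f := fun l => ‖Complex.log (γ l)‖) (fun i _ => norm_nonneg _)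
      (Finset.mem_univ l)
  obtain ⟨K, hK⟩ : ∃ K : ℝ, K = K1 + K2 + K3 + 96 * |D3| + 240 + 24 * Cγ := ⟨_, rfl⟩
  have hD3 : 0 ≤ |D3| := abs_nonneg _
  have k1 : K1 ≤ K := by rw [hK]; linarith
  have k2 : K2 ≤ K := by rw [hK]; linarith
  have k3 : K3 ≤ K := by rw [hK]; linarith
  have hK1' : 1 ≤ K := by rw [hK]; linarith
  have hK0 : 0 < K := by linarith
  obtain ⟨T, hKT, hT2, M, w, hw, hball⟩ := hD K hK1'
  have hT1 : 1 ≤ T := by linarith
  have hT0 : 0 ≤ T := by linarith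
  have hlog2 : (0.69 : ℝ) ≤ Real.log T := by
    have := Real.log_le_log (by norm_num) hT2
    linarith [Real.log_two_gt_d9]
  have hlog : 0 < Real.log T := by linarith
  obtain ⟨q, hq⟩ : ∃ q : Fin n → ℂ, q = fun l => 2 * Real.pi * Complex.I * (M l : ℂ) := ⟨_, rfl⟩
  obtain ⟨ρ, hρ⟩ : ∃ ρ : ℝ, ρ = K * Real.log T := ⟨_, rfl⟩
  rw [← hq, ← hρ] at hw hball
  have hρ0 : 0 < ρ := by rw [hρ]; exact mul_pos hK0 hlog
  have hwj : ∀ j, DifferentiableOn ℂ (fun u => w u j) (ball q ρ) := differentiableOn_pi.1 hw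
  obtain ⟨X, hX⟩ : ∃ X : (Fin n → ℂ) → Fin n → ℂ,
      X = fun u l => u l + ∑ j, w u j * ((G.a l j : ℚ) : ℂ) := ⟨_, rfl⟩
  obtain ⟨Y, hY⟩ : ∃ Y : (Fin n → ℂ) → Fin c → ℂ, Y = fun u j => Complex.exp (w u j) := ⟨_, rfl⟩
  have hXd : DifferentiableOn ℂ X (ball q ρ) := by
    rw [hX, differentiableOn_pi]
    intro l
    have e1 : DifferentiableOn ℂ (fun u : Fin n → ℂ => u l) (ball q ρ) := differentiableOn_apply l _
    exact e1.add (DifferentiableOn.fun_sum fun j _ => (hwj j).mul_const _)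
  have hYd : DifferentiableOn ℂ Y (ball q ρ) := by
    rw [hY, differentiableOn_pi]
    exact fun j => (hwj j).cexp
  have hlogY : ∀ u j, Real.log ‖Y u j‖ = (w u j).re := by
    intro u j
    rw [hY]
    simp only [Complex.norm_exp, Real.log_exp]
  have hadm : ∀ u ∈ ball q ρ, Adm G.I G.lam R D K T (X u) (Y u) := by
    intro u hu
    obtain ⟨b1, b2, b3, b4⟩ := hball u hu
    refine ⟨?_, ?_, ?_, fun j => ⟨?_, ?_⟩⟩
    · rw [hX]; exact b1
    · rw [hX]; exact b3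
    · rw [hX]; exact b4
    · rw [hY]; exact Complex.exp_ne_zero _
    · rw [hlogY]; exact b2 j
  have hcb : q ∈ ball q ρ := mem_ball_self hρ0
  obtain ⟨y0, p1, p2, p3, p4, p5⟩ := G1 T (k1.trans hKT) (X q) (Y q)
    ((hadm q hcb).mono (by linarith) k1 hT0)
  obtain ⟨y, hyd, hyc, hy⟩ := G2 T (k2.trans hKT) q ρ X Y hρ0 hXd hYd
    (fun u hu => (hadm u hu).mono (by linarith) k2 hT0) y0 p1 p2 p3 p4
  have hslc := G3 T (k3.trans hKT) q ρ X Y y hρ0 hYd.continuousOn hyd.continuousOn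
    (fun u hu => (hadm u hu).mono (by linarith) k3 hT0)
    (fun u hu => ⟨(hy u hu).1, (hy u hu).2.1, (hy u hu).2.2.1⟩)
    (fun l => by rw [hyc]; exact p5 l)
  -- the logarithms
  have hex : ∀ l : Fin n, ∃ h : (Fin n → ℂ) → ℂ, DifferentiableOn ℂ h (ball q ρ) ∧
      (∀ u ∈ ball q ρ, Complex.exp (h u) =
        y u l * Complex.exp (-(∑ j, w u j * ((G.a l j : ℚ) : ℂ)))) ∧
      |(h q).im| ≤ Real.pi := by
    intro l
    refine h4 n q ρ (fun u => y u l * Complex.exp (-(∑ j, w u j * ((G.a l j : ℚ) : ℂ)))) hρ0 ?_ ?_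
    · exact (differentiableOn_pi.1 hyd l).mul
        ((DifferentiableOn.fun_sum fun j _ => (hwj j).mul_const _).neg.cexp)
    · intro u hu
      exact mul_ne_zero ((hy u hu).2.1 l) (Complex.exp_ne_zero _)
  choose h hhd hhe hhc using hex
  obtain ⟨B, hB⟩ : ∃ B : ℝ, B = |D3| * Real.log T := ⟨_, rfl⟩
  have hB0 : 0 ≤ B := by rw [hB]; exact mul_nonneg hD3 hlog.le
  have hre : ∀ l, ∀ u ∈ ball q ρ, |(h l u).re| ≤ B := by
    intro l u hu
    have e0 : (-(∑ j, w u j * ((G.a l j : ℚ) : ℂ))).re =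
        -∑ j, ((G.a l j : ℚ) : ℝ) * (w u j).re := by
      rw [Complex.neg_re, Complex.re_sum]
      congr 1
      refine Finset.sum_congr rfl fun j _ => ?_
      have : ((G.a l j : ℚ) : ℂ) = (((G.a l j : ℚ) : ℝ) : ℂ) := by norm_cast
      rw [this, Complex.re_mul_ofReal, mul_comm]
    have e1 : Real.exp ((h l u).re) =
        ‖y u l‖ * Real.exp (-∑ j, ((G.a l j : ℚ) : ℝ) * (w u j).re) := by
      rw [← Complex.norm_exp, hhe l u hu, norm_mul, Complex.norm_exp, e0]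
    have hy0 : 0 < ‖y u l‖ := norm_pos_iff.2 ((hy u hu).2.1 l)
    have e2 : (h l u).re = Real.log ‖y u l‖ - ∑ j, ((G.a l j : ℚ) : ℝ) * Real.log ‖Y u j‖ := by
      have := congrArg Real.log e1
      rw [Real.log_exp, Real.log_mul hy0.ne' (Real.exp_pos _).ne', Real.log_exp] at this
      rw [this]
      simp only [hlogY]
      ring
    rw [e2]
    refine (hslc u hu l).trans ?_
    rw [hB]
    exact mul_le_mul_of_nonneg_right (le_abs_self D3) hlog.le
  have hbd : ∀ l, ∀ u ∈ ball q (ρ / 2), ‖h l u‖ ≤ 6 * B + 10 := fun l =>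
    h5 n q ρ B (h l) hρ0 hB0 (hhd l) (hre l) (hhc l)
  have hsub : ball q (ρ / 2) ⊆ ball q ρ := ball_subset_ball (by linarith)
  obtain ⟨u, hu, hfix⟩ := h6 n q (ρ / 2) (6 * B + 10 + Cγ)
    (fun u l => h l u - Complex.log (γ l)) (by linarith)
    (differentiableOn_pi.2 fun l => ((hhd l).mono hsub).sub_const _)
    (fun u hu => (pi_norm_le_iff_of_nonneg (by linarith)).2 fun l =>
      (norm_sub_le _ _).trans (add_le_add (hbd l u hu) (hCγl l))) (by
      rw [hρ, hB, hK]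
      have e1 : 0 ≤ |D3| * Real.log T := mul_nonneg hD3 hlog.le
      have e2 : 0.69 * Cγ ≤ Real.log T * Cγ := mul_le_mul_of_nonneg_right hlog2 hCγ0
      have e3 : 0 ≤ (K1 + K2 + K3) * Real.log T := mul_nonneg (by linarith) hlog.le
      nlinarith)
  have hu' := hsub hu
  have hexp : (fun l => γ l * Complex.exp (X u l)) = y u := by
    funext l
    have e1 : X u l = 2 * Real.pi * Complex.I * (M l : ℂ) + (h l u - Complex.log (γ l)) +
        ∑ j, w u j * ((G.a l j : ℚ) : ℂ) := by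
      have := congrFun hfix l
      simp only [Pi.add_apply, hq] at this
      simp only [hX]
      rw [← this]
    have e2 : Complex.exp (2 * Real.pi * Complex.I * (M l : ℂ)) = 1 := by
      have := Complex.exp_int_mul_two_pi_mul_I (M l)
      rw [← this]; congr 1; ring
    rw [e1, Complex.exp_add, Complex.exp_add, e2, one_mul, Complex.exp_sub,
      Complex.exp_log (hγ l), hhe l u hu']
    have e3 : Complex.exp (-(∑ j, w u j * ((G.a l j : ℚ) : ℂ))) *
        Complex.exp (∑ j, w u j * ((G.a l j : ℚ) : ℂ)) = 1 := by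
      rw [← Complex.exp_add, neg_add_cancel, Complex.exp_zero]
    have hg := hγ l
    calc γ l * (y u l * Complex.exp (-(∑ j, w u j * ((G.a l j : ℚ) : ℂ))) / γ l *
          Complex.exp (∑ j, w u j * ((G.a l j : ℚ) : ℂ))) =
        y u l * (Complex.exp (-(∑ j, w u j * ((G.a l j : ℚ) : ℂ))) *
          Complex.exp (∑ j, w u j * ((G.a l j : ℚ) : ℂ))) := by
          field_simp
      _ = y u l := by rw [e3, mul_one]
  refine ⟨X u, ?_, ?_⟩
  · rw [hexp]; exact (hy u hu').1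
  · rw [hexp]; exact (hy u hu').2.2.2

end Pool.Agent.Q151.EL
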