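import Pool.Agent.Q72.EL.Stm

/-!
# Project EL (helper72): job VAL2
-/

set_option autoImplicit false

namespace Pool.Agent.Q151.EL

open MvPolynomial Filter Topology Metric Pool.Agent.Q72.EL

/-- a rational relation between independent weights is trivial -/
theorem rel_zero {c : ℕ} {lam : Fin c → ℝ} (h : LinearIndependent ℚ lam) (q : Fin c → ℚ)
    (hq : ∑ j, ((q j : ℚ) : ℝ) * lam j = 0) : ∀ j, q j = 0 := by
  have h1 := Fintype.linearIndependent_iff.1 h q
  apply h1
  rw [← hq]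
  refine Finset.sum_congr rfl fun j _ => ?_
  rw [Rat.smul_def]

theorem val : S_val := by
  classical
  intro c E _ O lam F C Y Z N p hlam hF hc hY0 hZ0 hmon hN hZ hsum
  obtain ⟨v, hv⟩ : ∃ v, v = O.valuation := ⟨_, rfl⟩
  rw [← hv] at hc hmon hZ
  -- the integral exponents
  obtain ⟨q, hq⟩ : ∃ q : (Fin c →₀ ℕ) × ℕ → Fin c → ℤ,
      q = fun e j => (N : ℤ) * e.1 j + e.2 * p j := ⟨_, rfl⟩
  obtain ⟨W, hW⟩ : ∃ W : (Fin c →₀ ℕ) × ℕ → ℝ, W = fun e => ∑ j, (q e j : ℝ) * lam j := ⟨_, rfl⟩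
  obtain ⟨e₁, he₁, hmin⟩ := F.exists_min_image W hF
  have hprod0 : ∀ α : Fin c → ℤ, ∏ j, Y j ^ α j ≠ 0 := fun α =>
    Finset.prod_ne_zero_iff.2 fun j _ => zpow_ne_zero _ (hY0 j)
  have hpow : ∀ e ∈ F, v (C e * (∏ j, Y j ^ e.1 j) * Z ^ e.2) ^ N = v (∏ j, Y j ^ q e j) := by
    intro e he
    rw [map_mul, map_mul, map_pow, hc e he, one_mul, mul_pow, ← pow_mul, mul_comm e.2 N,
      pow_mul (v Z), hZ, ← map_pow, ← map_pow, ← map_mul]
    congr 1
    rw [← Finset.prod_pow, ← Finset.prod_pow, ← Finset.prod_mul_distrib]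
    refine Finset.prod_congr rfl fun j _ => ?_
    rw [hq]
    simp only
    rw [zpow_add₀ (hY0 j), mul_comm (e.2 : ℤ), zpow_mul _ (p j), zpow_natCast, mul_comm (N : ℤ),
      zpow_mul, zpow_natCast, zpow_natCast]
  have hlt' : ∀ e e', W e < W e' → v (∏ j, Y j ^ q e' j) < v (∏ j, Y j ^ q e j) := by
    intro e e' h
    have h1 := hmon (fun j => q e' j - q e j) (by
      have : ∑ j, ((q e' j - q e j : ℤ) : ℝ) * lam j = W e' - W e := by
        rw [hW]
        simp only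
        rw [← Finset.sum_sub_distrib]
        refine Finset.sum_congr rfl fun j _ => ?_
        push_cast
        ring
      rw [this]
      linarith)
    have h2 : ∏ j, Y j ^ q e' j = (∏ j, Y j ^ (q e' j - q e j)) * ∏ j, Y j ^ q e j := by
      rw [← Finset.prod_mul_distrib]
      refine Finset.prod_congr rfl fun j _ => ?_
      rw [← zpow_add₀ (hY0 j), sub_add_cancel]
    rw [h2, map_mul]
    have h3 : 0 < v (∏ j, Y j ^ q e j) := by
      rw [zero_lt_iff]
      exact (Valuation.ne_zero_iff v).2 (hprod0 _)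
    calc v (∏ j, Y j ^ (q e' j - q e j)) * v (∏ j, Y j ^ q e j) <
        1 * v (∏ j, Y j ^ q e j) := mul_lt_mul_of_pos_right h1 h3
      _ = v (∏ j, Y j ^ q e j) := one_mul _
  have hex : ∃ e₂ ∈ F, e₂ ≠ e₁ ∧ W e₂ ≤ W e₁ := by
    by_contra hcon
    push Not at hcon
    have hlt : ∀ e ∈ F.erase e₁, v (C e * (∏ j, Y j ^ e.1 j) * Z ^ e.2) <
        v (C e₁ * (∏ j, Y j ^ e₁.1 j) * Z ^ e₁.2) := by
      intro e he
      obtain ⟨hne, hm⟩ := Finset.mem_erase.1 he
      have h1 := hcon e hm hne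
      apply lt_of_pow_lt_pow_left₀ N zero_le
      rw [hpow e hm, hpow e₁ he₁]
      exact hlt' _ _ h1
    rw [← Finset.add_sum_erase _ _ he₁] at hsum
    have h2 : C e₁ * (∏ j, Y j ^ e₁.1 j) * Z ^ e₁.2 =
        -∑ e ∈ F.erase e₁, C e * (∏ j, Y j ^ e.1 j) * Z ^ e.2 :=
      eq_neg_of_add_eq_zero_left hsum
    have hne0 : C e₁ * (∏ j, Y j ^ e₁.1 j) * Z ^ e₁.2 ≠ 0 := by
      have : C e₁ ≠ 0 := by
        intro h
        have := hc e₁ he₁
        rw [h, map_zero] at this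
        exact zero_ne_one this
      exact mul_ne_zero (mul_ne_zero this (Finset.prod_ne_zero_iff.2 fun j _ =>
        pow_ne_zero _ (hY0 j))) (pow_ne_zero _ hZ0)
    have h3 : v (∑ e ∈ F.erase e₁, C e * (∏ j, Y j ^ e.1 j) * Z ^ e.2) <
        v (C e₁ * (∏ j, Y j ^ e₁.1 j) * Z ^ e₁.2) :=
      Valuation.map_sum_lt v ((Valuation.ne_zero_iff v).2 hne0) hlt
    rw [h2, Valuation.map_neg] at h3
    exact lt_irrefl _ h3
  obtain ⟨e₂, he₂, hne, hle⟩ := hex
  have hNr : (0 : ℝ) < N := by exact_mod_cast hN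
  have hWr : ∀ e, ∑ j, ((e.1 j : ℝ) + e.2 * ((p j : ℝ) / N)) * lam j = W e / N := by
    intro e
    rw [hW, hq]
    simp only
    rw [Finset.sum_div]
    refine Finset.sum_congr rfl fun j _ => ?_
    push_cast
    field_simp
  refine ⟨e₁, he₁, e₂, he₂, ?_, fun e he => ?_⟩
  · intro h2
    apply hne
    have h3 : W e₁ = W e₂ := le_antisymm (hmin e₂ he₂) hle
    have h4 := rel_zero hlam (fun j => ((q e₁ j - q e₂ j : ℤ) : ℚ)) (by
      have : ∑ j, ((((q e₁ j - q e₂ j : ℤ) : ℚ)) : ℝ) * lam j = W e₁ - W e₂ := by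
        rw [hW]
        simp only
        rw [← Finset.sum_sub_distrib]
        refine Finset.sum_congr rfl fun j _ => ?_
        push_cast
        ring
      rw [this, h3, sub_self])
    have h5 : e₂.1 = e₁.1 := by
      ext j
      have h6 := h4 j
      have h7 : q e₁ j - q e₂ j = 0 := by exact_mod_cast h6
      rw [hq] at h7
      simp only at h7
      rw [h2] at h7
      have h8 : (N : ℤ) * (e₁.1 j : ℤ) = N * (e₂.1 j : ℤ) := by linarith
      have h9 : (N : ℤ) ≠ 0 := by exact_mod_cast hN.ne'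
      have := mul_left_cancel₀ h9 h8
      exact_mod_cast this.symm
    exact Prod.ext h5 h2.symm
  · rw [hWr e₁, hWr e₂, hWr e]
    constructor
    · have := hmin e he
      gcongr
    · have := hle.trans (hmin e he)
      gcongr

end Pool.Agent.Q151.EL
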